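import Pool.Agent.H65.CosetDefs
import Pool.Agent.H65.Coset

set_option autoImplicit false

namespace Pool.Agent.Results.MP_f02465_al.Bound
open Pool.Agent.H65.CosetDefs

/-- `E_{i+1}` (written `E H y i`) is empty as soon as `i + 1 > [F₂ : H]`. -/
theorem result (H : Subgroup (FreeGroup (Fin 2))) [H.FiniteIndex] (y : FreeGroup (Fin 2))
    (i : ℕ) (hi : H.index < i + 1) : E H y i = ∅ :=
  Pool.Agent.H65.Coset.E_empty H y i hi

end Pool.Agent.Results.MP_f02465_al.Bound
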